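import Mathlib
import Pool.Agent.Helper888.PRCore

/-! Embeddings of `C_p(X)` in pseudoradial spaces: compact and Polish `X`. -/

set_option autoImplicit false

open Set Filter Topology
open Pool.Agent.Helper888.PR

namespace Pool.Agent.Y365.PR

universe u v w

/-- `C_p(X)`: the continuous real functions on `X`, with the topology of pointwise convergence. -/
abbrev CpX (X : Type u) [TopologicalSpace X] : Type u := {f : X → ℝ // Continuous f}

/-- `X` maps continuously onto the unit interval. -/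
def MapsOntoI (X : Type u) [TopologicalSpace X] : Prop :=
  ∃ q : X → I01, Continuous q ∧ Function.Surjective q

/-- Composition with a continuous surjection is an embedding of function spaces. -/
theorem isEmbedding_comp {X : Type u} [TopologicalSpace X] {q : X → I01} (hq : Continuous q)
    (hs : Function.Surjective q) :
    IsEmbedding (fun f : Cp => (⟨f.1 ∘ q, f.2.comp hq⟩ : CpX X)) := by
  have hinj : Function.Injective (fun f : Cp => (⟨f.1 ∘ q, f.2.comp hq⟩ : CpX X)) := by
    intro f g h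
    apply Subtype.ext
    funext t
    obtain ⟨x, rfl⟩ := hs t
    exact congrFun (congrArg Subtype.val h) x
  refine ⟨?_, hinj⟩
  have h1 : IsInducing (fun φ : I01 → ℝ => (φ ∘ q : X → ℝ)) := by
    constructor
    simp only [Pi.topologicalSpace, induced_iInf, induced_compose]
    exact (hs.iInf_comp (fun t : I01 =>
      TopologicalSpace.induced (fun φ : I01 → ℝ => φ t) inferInstance)).symm
  have h2 : IsInducing ((Subtype.val : CpX X → (X → ℝ)) ∘
      (fun f : Cp => (⟨f.1 ∘ q, f.2.comp hq⟩ : CpX X))) :=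
    h1.comp IsInducing.subtypeVal
  refine IsInducing.of_comp ?_ continuous_subtype_val h2
  exact Continuous.subtype_mk (h1.continuous.comp continuous_subtype_val) _

/-- If `X` maps onto `[0,1]` then `C_p(X)` does not embed in a regular pseudoradial space. -/
theorem no_embed {X : Type u} [TopologicalSpace X] (hX : MapsOntoI X) {Z : Type w}
    [TopologicalSpace Z] [T3Space Z] (hZ : Pseudoradial Z) {e : CpX X → Z}
    (he : IsEmbedding e) : False := by
  obtain ⟨q, hq, hs⟩ := hX
  exact main hZ (he.comp (isEmbedding_comp hq hs))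

/-- Fréchet-Urysohn spaces are pseudoradial. -/
theorem pseudoradial_of_frechet (Z : Type u) [TopologicalSpace Z] [FrechetUrysohnSpace Z] :
    Pseudoradial Z := by
  intro A hA
  rw [← closure_subset_iff_isClosed]
  intro x hx
  rw [mem_closure_iff_seq_limit] at hx
  obtain ⟨u, hu, hux⟩ := hx
  have hnat : ∀ α : Ordinal.{u}, ∃ n : ℕ, α < Ordinal.omega0 → α = n := by
    intro α
    by_cases h : α < Ordinal.omega0
    · obtain ⟨n, hn⟩ := Ordinal.lt_omega0.1 h
      exact ⟨n, fun _ => hn⟩
    · exact ⟨0, fun h' => absurd h' h⟩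
  choose ν hν using hnat
  refine hA Ordinal.omega0 (fun α => u (ν α)) x (fun α _ => hu _) ?_
  intro U hU
  obtain ⟨N, hN⟩ := eventually_atTop.1 (hux hU)
  refine ⟨N, Ordinal.natCast_lt_omega0 N, fun α h1 h2 => hN _ ?_⟩
  rw [hν α h2] at h1
  exact_mod_cast h1

/-- Neighbourhoods in `C_p(X)`. -/
theorem nhds_Cp {X : Type u} [TopologicalSpace X] {f : CpX X} {W : Set (CpX X)}
    (hW : W ∈ 𝓝 f) : ∃ (F : Finset X) (ε : ℝ), 0 < ε ∧
      ∀ g : CpX X, (∀ t ∈ F, |g.1 t - f.1 t| < ε) → g ∈ W := by
  rw [nhds_subtype_eq_comap, mem_comap] at hW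
  obtain ⟨T, hT, hTW⟩ := hW
  rw [nhds_pi, Filter.mem_pi] at hT
  obtain ⟨F, hF, t, ht, htT⟩ := hT
  have h1 : ∀ x : X, ∃ r : ℝ, 0 < r ∧ Metric.ball (f.1 x) r ⊆ t x := fun x =>
    Metric.mem_nhds_iff.1 (ht x)
  choose r hr hrt using h1
  have h2 : ∀ᶠ ε : ℝ in 𝓝[>] 0, ∀ x ∈ hF.toFinset, ε < r x := by
    rw [Filter.eventually_all_finset]
    intro x _
    filter_upwards [Ioo_mem_nhdsGT (hr x)] with ε hε
    exact hε.2
  obtain ⟨ε, h3, h4⟩ := (h2.and self_mem_nhdsWithin).exists
  refine ⟨hF.toFinset, ε, h4, fun g hg => hTW (htT ?_)⟩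
  intro x hx
  apply hrt
  rw [Metric.mem_ball, Real.dist_eq]
  exact (hg x (hF.mem_toFinset.2 hx)).trans (h3 x (hF.mem_toFinset.2 hx))

/-- Countable tightness of `C_p(X)` for compact `X`. -/
theorem countable_tight {X : Type u} [TopologicalSpace X] [CompactSpace X] {A : Set (CpX X)}
    {f : CpX X} (hf : f ∈ closure A) : ∃ B ⊆ A, B.Countable ∧ f ∈ closure B := by
  classical
  have hfin : ∀ n k : ℕ, ∃ B : Set (CpX X), B ⊆ A ∧ B.Finite ∧
      ∀ p : Fin n → X, ∃ g ∈ B, ∀ i, |g.1 (p i) - f.1 (p i)| < 1 / ((k : ℝ) + 1) := by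
    intro n k
    have hpos : (0 : ℝ) < 1 / ((k : ℝ) + 1) := by positivity
    have h1 : ∀ p : Fin n → X, ∃ g ∈ A, ∀ i, |g.1 (p i) - f.1 (p i)| < 1 / ((k : ℝ) + 1) := by
      intro p
      have hW : {g : CpX X | ∀ i, |g.1 (p i) - f.1 (p i)| < 1 / ((k : ℝ) + 1)} ∈ 𝓝 f := by
        have ho : IsOpen {g : CpX X | ∀ i, |g.1 (p i) - f.1 (p i)| < 1 / ((k : ℝ) + 1)} := by
          have : {g : CpX X | ∀ i, |g.1 (p i) - f.1 (p i)| < 1 / ((k : ℝ) + 1)}
              = ⋂ i, {g : CpX X | |g.1 (p i) - f.1 (p i)| < 1 / ((k : ℝ) + 1)} := by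
            ext g; simp
          rw [this]
          refine isOpen_iInter_of_finite fun i => isOpen_lt ?_ continuous_const
          exact (((continuous_apply (p i)).comp continuous_subtype_val).sub
            continuous_const).abs
        refine ho.mem_nhds ?_
        intro i
        rw [sub_self, abs_zero]
        exact hpos
      obtain ⟨g, hg1, hg2⟩ := mem_closure_iff_nhds.1 hf _ hW
      exact ⟨g, hg2, hg1⟩
    choose g hgA hg using h1
    let U : (Fin n → X) → Set (Fin n → X) := fun p =>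
      {p' | ∀ i, |(g p).1 (p' i) - f.1 (p' i)| < 1 / ((k : ℝ) + 1)}
    have hUo : ∀ p, IsOpen (U p) := by
      intro p
      have : U p = ⋂ i, {p' : Fin n → X | |(g p).1 (p' i) - f.1 (p' i)| < 1 / ((k : ℝ) + 1)} := by
        ext p'; simp [U]
      rw [this]
      refine isOpen_iInter_of_finite fun i => isOpen_lt ?_ continuous_const
      exact (((g p).2.comp (continuous_apply i)).sub (f.2.comp (continuous_apply i))).abs
    obtain ⟨s, hs⟩ := isCompact_univ.elim_finite_subcover U hUo (by
      intro p _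
      exact mem_iUnion.2 ⟨p, hg p⟩)
    refine ⟨g '' (s : Set (Fin n → X)), ?_, s.finite_toSet.image g, ?_⟩
    · rintro _ ⟨p, _, rfl⟩
      exact hgA p
    · intro p
      obtain ⟨p', hp', hp⟩ := mem_iUnion₂.1 (hs (mem_univ p))
      exact ⟨g p', ⟨p', hp', rfl⟩, hp⟩
  choose B hBA hBf hB using hfin
  refine ⟨⋃ n, ⋃ k, B n k, ?_, ?_, ?_⟩
  · exact iUnion_subset fun n => iUnion_subset fun k => hBA n k
  · exact countable_iUnion fun n => countable_iUnion fun k => (hBf n k).countable
  · rw [mem_closure_iff_nhds]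
    intro W hW
    obtain ⟨F, ε, hε, hF⟩ := nhds_Cp hW
    obtain ⟨k, hk⟩ := exists_nat_one_div_lt hε
    obtain ⟨g, hg1, hg2⟩ := hB F.card k (fun i => (F.equivFin.symm i : X))
    refine ⟨g, hF g ?_, mem_iUnion₂.2 ⟨F.card, k, hg1⟩⟩
    intro t ht
    have := hg2 (F.equivFin ⟨t, ht⟩)
    simp only [Equiv.symm_apply_apply] at this
    exact this.trans hk

/-- A normal space containing a continuous injective image of the Cantor set maps onto `[0,1]`. -/
theorem onto_of_cantor {Y : Type v} [TopologicalSpace Y] [T2Space Y] [NormalSpace Y]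
    (j : (ℕ → Bool) → Y) (hj : Continuous j) (hinj : Function.Injective j) :
    ∃ h : Y → I01, Continuous h ∧ ∀ t, ∃ c, h (j c) = t := by
  have : Nonempty I01 := ⟨⟨0, by norm_num, by norm_num⟩⟩
  obtain ⟨s, hs, hss⟩ := exists_nat_bool_continuous_surjective_of_compact I01
  have hcl : IsClosedEmbedding j := hj.isClosedEmbedding hinj
  let s' : C(ℕ → Bool, ℝ) := ⟨fun c => (s c : ℝ), continuous_subtype_val.comp hs⟩
  obtain ⟨F, hF⟩ := s'.exists_extension hcl
  have hF' : ∀ c, F (j c) = (s c : ℝ) := fun c => by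
    have := congrArg (fun φ : C(ℕ → Bool, ℝ) => φ c) hF
    exact this
  refine ⟨fun y => Set.projIcc 0 1 zero_le_one (F y), continuous_projIcc.comp F.continuous, ?_⟩
  intro t
  obtain ⟨c, rfl⟩ := hss t
  refine ⟨c, ?_⟩
  change Set.projIcc 0 1 zero_le_one (F (j c)) = s c
  rw [hF', Set.projIcc_val]

/-- A compact space which does not map onto `[0,1]` has countable compact metrizable images. -/
theorem countable_image {X : Type u} [TopologicalSpace X] [CompactSpace X] (hX : ¬ MapsOntoI X)
    {T : Type v} [Countable T] (q : X → (T → ℝ)) (hq : Continuous q) : (range q).Countable := by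
  by_contra hc
  have hcl : IsClosed (range q) := (isCompact_range hq).isClosed
  obtain ⟨j, hjr, hj, hinj⟩ := hcl.exists_nat_bool_injection_of_not_countable hc
  obtain ⟨h, hh, hhs⟩ := onto_of_cantor j hj hinj
  apply hX
  refine ⟨h ∘ q, hh.comp hq, fun t => ?_⟩
  obtain ⟨c, hcc⟩ := hhs t
  obtain ⟨x, hx⟩ := hjr ⟨c, rfl⟩
  exact ⟨x, by rw [Function.comp_apply, hx, hcc]⟩

/-- If the compact space `X` does not map onto `[0,1]` then `C_p(X)` is Fréchet-Urysohn. -/
theorem frechet_of_compact {X : Type u} [TopologicalSpace X] [CompactSpace X]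
    (hX : ¬ MapsOntoI X) : FrechetUrysohnSpace (CpX X) := by
  classical
  constructor
  intro A f hf
  obtain ⟨B, hBA, hBc, hfB⟩ := countable_tight hf
  let T : Set (CpX X) := insert f B
  have hTc : Countable T := (hBc.insert f).to_subtype
  let q : X → (T → ℝ) := fun x g => g.1.1 x
  have hq : Continuous q := continuous_pi fun g => g.1.2
  have hY : (range q).Countable := countable_image hX q hq
  have hYc : Countable (range q) := hY.to_subtype
  -- points over the image
  have hch : ∀ y : range q, ∃ x, q x = y.1 := fun y => y.2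
  choose ξ hξ using hch
  have hagree : ∀ (g : CpX X), g ∈ T → ∀ x, g.1 x = g.1 (ξ ⟨q x, x, rfl⟩) := by
    intro g hg x
    have := congrFun (hξ ⟨q x, x, rfl⟩) ⟨g, hg⟩
    exact this.symm
  let R : CpX X → (range q → ℝ) := fun g y => g.1 (ξ y)
  have hR : Continuous R := continuous_pi fun y =>
    (continuous_apply (ξ y)).comp continuous_subtype_val
  have hRf : R f ∈ closure (R '' B) :=
    image_closure_subset_closure_image hR ⟨f, hfB, rfl⟩
  rw [mem_closure_iff_seq_limit] at hRf
  obtain ⟨z, hz, hzf⟩ := hRf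
  choose b hbB hbz using hz
  refine ⟨b, fun n => hBA (hbB n), ?_⟩
  rw [tendsto_subtype_rng, tendsto_pi_nhds]
  intro x
  have h1 : ∀ n, (b n).1 x = z n ⟨q x, x, rfl⟩ := by
    intro n
    rw [hagree (b n) (mem_insert_of_mem _ (hbB n)) x, ← hbz n]
  have h2 : f.1 x = R f ⟨q x, x, rfl⟩ := hagree f (mem_insert _ _) x
  simp only [h1, h2]
  exact (tendsto_pi_nhds.1 hzf) _

/-- The compact case. -/
theorem compact_case (X : Type u) [TopologicalSpace X] [CompactSpace X] [T2Space X] :
    [(∃ (Z : Type u) (_ : TopologicalSpace Z), T3Space Z ∧ Pseudoradial Z ∧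
        ∃ e : CpX X → Z, IsEmbedding e),
      FrechetUrysohnSpace (CpX X),
      ¬ MapsOntoI X].TFAE := by
  tfae_have 1 → 3 := by
    rintro ⟨Z, _, _, hZ, e, he⟩ h
    exact no_embed h hZ he
  tfae_have 3 → 2 := frechet_of_compact
  tfae_have 2 → 1 := fun h =>
    ⟨CpX X, inferInstance, inferInstance, pseudoradial_of_frechet _, id, IsEmbedding.id⟩
  tfae_finish

/-- The Polish case. -/
theorem polish_case (X : Type u) [TopologicalSpace X] [PolishSpace X] :
    [(∃ (Z : Type u) (_ : TopologicalSpace Z), T3Space Z ∧ Pseudoradial Z ∧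
        ∃ e : CpX X → Z, IsEmbedding e),
      FrechetUrysohnSpace (CpX X),
      ¬ MapsOntoI X,
      Countable X].TFAE := by
  tfae_have 1 → 3 := by
    rintro ⟨Z, _, _, hZ, e, he⟩ h
    exact no_embed h hZ he
  tfae_have 3 → 4 := by
    intro h
    by_contra hc
    have hc' : ¬ (univ : Set X).Countable := fun h' => hc (countable_univ_iff.1 h')
    obtain ⟨j, -, hj, hinj⟩ := isClosed_univ.exists_nat_bool_injection_of_not_countable hc'
    obtain ⟨g, hg, hgs⟩ := onto_of_cantor j hj hinj
    exact h ⟨g, hg, fun t => by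
      obtain ⟨c, hcc⟩ := hgs t
      exact ⟨_, hcc⟩⟩
  tfae_have 4 → 2 := by
    intro h
    infer_instance
  tfae_have 2 → 1 := fun h =>
    ⟨CpX X, inferInstance, inferInstance, pseudoradial_of_frechet _, id, IsEmbedding.id⟩
  tfae_finish

end Pool.Agent.Y365.PR
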